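import Pool.Agent.H.MP_12d0d1_lc.B

namespace Pool.Agent.Results.MP_12d0d1_lc.MatchingCut

open Pool.Agent.Lib.CX Pool.Agent.H.MP_12d0d1_lc

theorem result : NPComplete fun a : {a : Gr // S2222.Free a.G} => HasMC a.1.G :=
  ⟨inNP.red ⟨fun a => a.1, PT.val PT.id, fun _ => .rfl⟩, hard⟩

end Pool.Agent.Results.MP_12d0d1_lc.MatchingCut
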